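import Mathlib

/-!
# Prophet secretary with one quantile query on the maximum: the model
-/

open Finset MeasureTheory
open scoped ENNReal

namespace Pool.Agent.ProphetSecretary

/-! ### The model -/

/-- An instance of the prophet secretary problem with `n` values: `D i` is the law of the `i`-th
value. Every `D i` is a probability measure on `ℝ` without atoms which gives mass `0` to the
negative numbers. The values are independent, so that their joint law is `Measure.pi D`. -/
structure IsInstance {n : ℕ} (D : Fin n → Measure ℝ) : Prop where
  isProbability : ∀ i, IsProbabilityMeasure (D i)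
  noAtom : ∀ i t, D i {t} = 0
  nonnegative : ∀ i, D i (Set.Iio 0) = 0

/-- `OPT = E[max_i x_i]`. -/
noncomputable def OPT {n : ℕ} (D : Fin n → Measure ℝ) : ℝ≥0∞ :=
  ∫⁻ x, ENNReal.ofReal (⨆ i, x i) ∂(Measure.pi D)

/-- `v` is a correct answer to the quantile query `q` on the law of `x* = max_i x_i`, that is,
`Pr[x* > v] = q`. -/
def IsAnswer {n : ℕ} (D : Fin n → Measure ℝ) (q v : ℝ) : Prop :=
  (Measure.pi D) {x | v < ⨆ i, x i} = ENNReal.ofReal q

/-- An algorithm in the single-query model. It knows the number `n` of values and asks for the
quantile `query n ∈ [0,1]`. At time `k` (the times are `0, …, n-1`) it knows `n`, the answer `v`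
to its query and the values `h 0, …, h k` revealed so far, the current one being `h k`; it is
willing to accept the current value iff `(v, h)` lies in the (measurable) set `accept n k`. -/
structure Algorithm where
  query : ℕ → ℝ
  query_mem : ∀ n, query n ∈ Set.Icc (0 : ℝ) 1
  accept : (n k : ℕ) → Set (ℝ × (Fin (k + 1) → ℝ))
  measurable_accept : ∀ n k, MeasurableSet (accept n k)

/-- The values revealed up to and including time `k`, if `y 0, y 1, …` are the values in their
order of arrival. -/
def seen {n : ℕ} (y : Fin n → ℝ) (k : Fin n) : Fin (k.val + 1) → ℝ :=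
  fun j => y ⟨j.val, lt_of_lt_of_le j.isLt k.isLt⟩

/-- The algorithm `A`, given the answer `v`, is willing to accept the value revealed at time `k`,
if `y 0, y 1, …` are the values in their order of arrival. -/
def Algorithm.accepts (A : Algorithm) {n : ℕ} (v : ℝ) (y : Fin n → ℝ) (k : Fin n) : Prop :=
  (v, seen y k) ∈ A.accept n k.val

open Classical in
/-- The accepted value if `y 0, y 1, …` are the values in their order of arrival: it is `y k` for
the first time `k` at which the algorithm is willing to accept, and `0` if there is no such time. -/
noncomputable def Algorithm.gain (A : Algorithm) {n : ℕ} (v : ℝ) (y : Fin n → ℝ) : ℝ :=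
  ∑ k, if A.accepts v y k ∧ ∀ j < k, ¬ A.accepts v y j then y k else 0

/-- `ALG`: the expected accepted value, where the values `x` have law `Measure.pi D` and are
revealed in the order `x (σ 0), x (σ 1), …` for a uniformly random permutation `σ` independent of
the values. -/
noncomputable def ALG (A : Algorithm) {n : ℕ} (D : Fin n → Measure ℝ) (v : ℝ) : ℝ≥0∞ :=
  (∑ σ : Equiv.Perm (Fin n), ∫⁻ x, ENNReal.ofReal (A.gain v (fun k => x (σ k))) ∂(Measure.pi D)) /
    (n.factorial : ℝ≥0∞)

/-- The competitive ratio: the infimum of `ALG / OPT` over all `n ≥ 1`, all instances with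
`0 < OPT < ∞` and all correct answers `v` to the query of the algorithm. -/
noncomputable def competitiveRatio (A : Algorithm) : ℝ≥0∞ :=
  ⨅ (n : ℕ) (D : Fin n → Measure ℝ) (v : ℝ)
    (_ : 1 ≤ n ∧ IsInstance D ∧ 0 < OPT D ∧ OPT D < ∞ ∧ IsAnswer D (A.query n) v),
      ALG A D v / OPT D

end Pool.Agent.ProphetSecretary
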