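import Pool.Agent.ProphetSecretary.Defs

/-!
# Prophet secretary with one quantile query on the maximum: beating `1 - 1/e`

The algorithm asks for the value `v` with `Pr[x* > v] = 0.612`. During the first `n - ⌈n/10⌉` steps
it accepts a value iff it is larger than `v`; during the last `⌈n/10⌉` steps it accepts a value iff
it is larger than `v` or larger than everything revealed before.
Its competitive ratio is at least `0.635`.
-/

open Finset MeasureTheory
open scoped ENNReal

namespace Pool.Agent.ProphetSecretary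

/-! ### Counting orderings -/

section Counting

variable {n : ℕ}

/-- orderings in which item `i` comes at time `k` and every earlier item has value at most `T` -/
noncomputable def N (x : Fin n → ℝ) (T : ℝ) (i k : Fin n) : Finset (Equiv.Perm (Fin n)) := by
  classical
  exact univ.filter (fun σ => σ k = i ∧ ∀ j < k, x (σ j) ≤ T)

lemma mem_N {x : Fin n → ℝ} {T : ℝ} {i k : Fin n} {σ : Equiv.Perm (Fin n)} :
    σ ∈ N x T i k ↔ σ k = i ∧ ∀ j < k, x (σ j) ≤ T := by
  classical
  simp [N]

/-- those orderings of `N` in which the best earlier item comes at time `p` -/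
noncomputable def Np (x : Fin n → ℝ) (T : ℝ) (i k p : Fin n) : Finset (Equiv.Perm (Fin n)) := by
  classical
  exact (N x T i k).filter (fun σ => ∀ j < k, x (σ j) ≤ x (σ p))

lemma mem_Np {x : Fin n → ℝ} {T : ℝ} {i k p : Fin n} {σ : Equiv.Perm (Fin n)} :
    σ ∈ Np x T i k p ↔ (σ k = i ∧ ∀ j < k, x (σ j) ≤ T) ∧ ∀ j < k, x (σ j) ≤ x (σ p) := by
  classical
  simp [Np, mem_N]

lemma swap_lt {k p p' j : Fin n} (hp : p < k) (hp' : p' < k) (hj : j < k) :
    Equiv.swap p p' j < k := by
  by_cases h1 : j = p
  · subst h1; simpa using hp'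
  by_cases h2 : j = p'
  · subst h2; simpa using hp
  rw [Equiv.swap_apply_of_ne_of_ne h1 h2]; exact hj

lemma card_Np_le (x : Fin n → ℝ) (T : ℝ) {i k p p' : Fin n} (hp : p < k) (hp' : p' < k) :
    (Np x T i k p).card ≤ (Np x T i k p').card := by
  classical
  apply Finset.card_le_card_of_injOn (fun σ => σ * Equiv.swap p p')
  · intro σ hσ
    have hσ' := mem_Np.1 (Finset.mem_coe.1 hσ)
    apply Finset.mem_coe.2
    rw [mem_Np]
    refine ⟨⟨?_, ?_⟩, ?_⟩
    · have : Equiv.swap p p' k = k :=
        Equiv.swap_apply_of_ne_of_ne (ne_of_gt hp) (ne_of_gt hp')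
      simp [this, hσ'.1.1]
    · intro j hj
      exact hσ'.1.2 _ (swap_lt hp hp' hj)
    · intro j hj
      have := hσ'.2 _ (swap_lt hp hp' hj)
      simpa using this
  · intro σ _ τ _ h
    exact mul_right_cancel h

lemma card_Np_eq (x : Fin n → ℝ) (T : ℝ) {i k p p' : Fin n} (hp : p < k) (hp' : p' < k) :
    (Np x T i k p).card = (Np x T i k p').card :=
  le_antisymm (card_Np_le x T hp hp') (card_Np_le x T hp' hp)

lemma Np_disj {x : Fin n → ℝ} (hx : Function.Injective x) (T : ℝ) {i k p p' : Fin n}
    (hp : p < k) (hp' : p' < k) (hne : p ≠ p') :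
    Disjoint (Np x T i k p) (Np x T i k p') := by
  rw [Finset.disjoint_left]
  intro σ h1 h2
  have h1' := (mem_Np.1 h1).2 _ hp'
  have h2' := (mem_Np.1 h2).2 _ hp
  exact hne (σ.injective (hx (le_antisymm h2' h1')))

lemma N_eq_biUnion {x : Fin n → ℝ} (T : ℝ) {i k : Fin n} (hk : 0 < (k : ℕ)) :
    N x T i k = (univ.filter (fun p : Fin n => p < k)).biUnion (fun p => Np x T i k p) := by
  classical
  ext σ
  simp only [mem_biUnion, mem_filter, mem_univ, true_and]
  constructor
  · intro hσ
    have hne : (univ.filter (fun p : Fin n => p < k)).Nonempty :=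
      ⟨⟨0, lt_trans hk k.2⟩, by rw [mem_filter]; exact ⟨mem_univ _, Fin.lt_def.2 hk⟩⟩
    obtain ⟨p, hp, hmax⟩ := Finset.exists_max_image _ (fun j => x (σ j)) hne
    refine ⟨p, by simpa using hp, mem_Np.2 ⟨mem_N.1 hσ, fun j hj => hmax j (by simpa using hj)⟩⟩
  · rintro ⟨p, _, hp⟩
    exact mem_N.2 (mem_Np.1 hp).1

lemma card_lt_filter (k : Fin n) : (univ.filter (fun p : Fin n => p < k)).card = (k : ℕ) := by
  have : univ.filter (fun p : Fin n => p < k) = Finset.Iio k := by ext; simp
  rw [this, Fin.card_Iio]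

lemma card_N {x : Fin n → ℝ} (hx : Function.Injective x) (T : ℝ) {i k p : Fin n} (hp : p < k) :
    (N x T i k).card = (k : ℕ) * (Np x T i k p).card := by
  classical
  have hk : 0 < (k : ℕ) := lt_of_le_of_lt (Nat.zero_le _) (Fin.lt_def.1 hp)
  rw [N_eq_biUnion T hk, Finset.card_biUnion]
  · rw [Finset.sum_congr rfl (g := fun _ => (Np x T i k p).card)]
    · simp [card_lt_filter]
    · intro p' hp'
      exact card_Np_eq x T (by simpa using hp') hp
  · intro a ha b hb hab
    exact Np_disj hx T (by simpa using ha) (by simpa using hb) hab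

/-- the good orderings of `N`: the best earlier item, if it exists, comes before time `m` -/
noncomputable def Gd (m : ℕ) (x : Fin n → ℝ) (T : ℝ) (i k : Fin n) :
    Finset (Equiv.Perm (Fin n)) := by
  classical
  exact (N x T i k).filter (fun σ => (k : ℕ) ≤ m ∨
    ∃ p : Fin n, p < k ∧ (p : ℕ) < m ∧ ∀ j < k, x (σ j) ≤ x (σ p))

lemma mem_Gd {m : ℕ} {x : Fin n → ℝ} {T : ℝ} {i k : Fin n} {σ : Equiv.Perm (Fin n)} :
    σ ∈ Gd m x T i k ↔ (σ k = i ∧ ∀ j < k, x (σ j) ≤ T) ∧ ((k : ℕ) ≤ m ∨
    ∃ p : Fin n, p < k ∧ (p : ℕ) < m ∧ ∀ j < k, x (σ j) ≤ x (σ p)) := by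
  classical
  simp [Gd, mem_N]

/-- weight of time `k` -/
noncomputable def b (m k : ℕ) : ℝ := if k ≤ m then 1 else (m : ℝ) / k

lemma b_nonneg (m k : ℕ) : 0 ≤ b m k := by
  unfold b; split_ifs <;> positivity

lemma b_le_one (m k : ℕ) : b m k ≤ 1 := by
  unfold b
  split_ifs with h
  · exact le_rfl
  · push Not at h
    have : (0 : ℝ) < k := by
      have : 0 < k := by omega
      exact_mod_cast this
    rw [div_le_one this]
    exact_mod_cast h.le

lemma b_antitone (m : ℕ) : Antitone (b m) := by
  intro k k' hkk'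
  unfold b
  split_ifs with h1 h2 h2
  · exact le_rfl
  · omega
  · have := b_le_one m k'
    unfold b at this
    rwa [if_neg h1] at this
  · have h3 : (0 : ℝ) < k := by
      have : 0 < k := by omega
      exact_mod_cast this
    have h4 : (k : ℝ) ≤ k' := by exact_mod_cast hkk'
    gcongr

lemma card_Gd {x : Fin n → ℝ} (hx : Function.Injective x) (m : ℕ) (T : ℝ) (i k : Fin n) :
    ((Gd m x T i k).card : ℝ) = (N x T i k).card * b m k := by
  classical
  by_cases hk : (k : ℕ) ≤ m
  · have h1 : Gd m x T i k = N x T i k := by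
      ext σ
      rw [mem_Gd, mem_N]
      simp [hk]
    rw [h1, b, if_pos hk, mul_one]
  · have hk' : m < (k : ℕ) := by omega
    have hk0 : 0 < (k : ℕ) := by omega
    have h0n : 0 < n := lt_trans hk0 k.2
    set p0 : Fin n := ⟨0, h0n⟩ with hp0
    have hp0k : p0 < k := Fin.lt_def.2 hk0
    have h1 : Gd m x T i k =
        (univ.filter (fun p : Fin n => (p : ℕ) < m)).biUnion (fun p => Np x T i k p) := by
      ext σ
      rw [mem_Gd]
      simp only [mem_biUnion, mem_filter, mem_univ, true_and, mem_Np]
      constructor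
      · rintro ⟨h, h' | ⟨p, hp, hpm, hmax⟩⟩
        · exact absurd h' hk
        · exact ⟨p, hpm, h, hmax⟩
      · rintro ⟨p, hpm, h, hmax⟩
        exact ⟨h, Or.inr ⟨p, Fin.lt_def.2 (lt_trans hpm hk'), hpm, hmax⟩⟩
    have hcard : (univ.filter (fun p : Fin n => (p : ℕ) < m)).card = m := by
      have hmn : m < n := lt_trans hk' k.2
      have : univ.filter (fun p : Fin n => (p : ℕ) < m) = Finset.Iio (⟨m, hmn⟩ : Fin n) := by
        ext p; simp [Fin.lt_def]
      rw [this, Fin.card_Iio]
    have h2 : (Gd m x T i k).card = m * (Np x T i k p0).card := by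
      rw [h1, Finset.card_biUnion]
      · rw [Finset.sum_congr rfl (g := fun _ => (Np x T i k p0).card)]
        · simp [hcard]
        · intro p' hp'
          have : (p' : ℕ) < m := by simpa using hp'
          exact card_Np_eq x T (Fin.lt_def.2 (lt_trans this hk')) hp0k
      · intro a ha b' hb' hab
        have ha' : (a : ℕ) < m := by simpa using ha
        have hb'' : (b' : ℕ) < m := by simpa using hb'
        exact Np_disj hx T (Fin.lt_def.2 (lt_trans ha' hk')) (Fin.lt_def.2 (lt_trans hb'' hk')) hab
    rw [h2, card_N hx T hp0k, b, if_neg hk]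
    have : ((k : ℕ) : ℝ) ≠ 0 := by
      have : (k : ℕ) ≠ 0 := by omega
      exact_mod_cast this
    push_cast
    field_simp

lemma card_N_anti (x : Fin n → ℝ) (T : ℝ) (i : Fin n) {k k' : Fin n} (h : k ≤ k') :
    (N x T i k').card ≤ (N x T i k).card := by
  classical
  apply Finset.card_le_card_of_injOn (fun σ => σ * Equiv.swap k k')
  · intro σ hσ
    have hσ' := mem_N.1 (Finset.mem_coe.1 hσ)
    apply Finset.mem_coe.2
    rw [mem_N]
    refine ⟨by simp [hσ'.1], ?_⟩
    intro j hj
    have h1 : j ≠ k := ne_of_lt hj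
    have h2 : j ≠ k' := ne_of_lt (lt_of_lt_of_le hj h)
    have : Equiv.swap k k' j = j := Equiv.swap_apply_of_ne_of_ne h1 h2
    rw [Equiv.Perm.mul_apply, this]
    exact hσ'.2 j (lt_of_lt_of_le hj h)
  · intro σ _ τ _ h
    exact mul_right_cancel h

/-- orderings in which no item before item `i` has value above `T` -/
noncomputable def F (x : Fin n → ℝ) (T : ℝ) (i : Fin n) : Finset (Equiv.Perm (Fin n)) := by
  classical
  exact univ.filter (fun σ => ∀ j < σ.symm i, x (σ j) ≤ T)

lemma mem_F {x : Fin n → ℝ} {T : ℝ} {i : Fin n} {σ : Equiv.Perm (Fin n)} :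
    σ ∈ F x T i ↔ ∀ j < σ.symm i, x (σ j) ≤ T := by
  classical
  simp [F]

lemma sum_card_N (x : Fin n → ℝ) (T : ℝ) (i : Fin n) :
    ∑ k, (N x T i k).card = (F x T i).card := by
  classical
  rw [Finset.card_eq_sum_card_fiberwise (s := F x T i) (t := univ) (f := fun σ => σ.symm i)
    (fun _ _ => Finset.mem_coe.2 (mem_univ _))]
  apply Finset.sum_congr rfl
  intro k _
  congr 1
  ext σ
  rw [mem_N, mem_filter, mem_F]
  constructor
  · rintro ⟨h1, h2⟩
    have : σ.symm i = k := by rw [← h1]; simp
    rw [this]; exact ⟨h2, rfl⟩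
  · rintro ⟨h1, h2⟩
    refine ⟨by rw [← h2]; simp, by rw [← h2]; exact h1⟩

lemma card_F_le (x : Fin n → ℝ) (T : ℝ) {i i' : Fin n} (hi : T < x i) (hi' : T < x i') :
    (F x T i).card ≤ (F x T i').card := by
  classical
  apply Finset.card_le_card_of_injOn (fun σ => Equiv.swap i i' * σ)
  · intro σ hσ
    have hσ' := mem_F.1 (Finset.mem_coe.1 hσ)
    apply Finset.mem_coe.2
    rw [mem_F]
    have h0 : (Equiv.swap i i' * σ).symm i' = σ.symm i := by
      rw [Equiv.symm_apply_eq]; simp
    rw [h0]
    intro j hj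
    have h1 := hσ' j hj
    have h2 : σ j ≠ i := by rintro rfl; linarith
    have h3 : σ j ≠ i' := by rintro rfl; linarith
    rw [Equiv.Perm.mul_apply, Equiv.swap_apply_of_ne_of_ne h2 h3]
    exact h1
  · intro σ _ τ _ h
    exact mul_left_cancel h

lemma card_F_eq (x : Fin n → ℝ) (T : ℝ) {i i' : Fin n} (hi : T < x i) (hi' : T < x i') :
    (F x T i).card = (F x T i').card :=
  le_antisymm (card_F_le x T hi hi') (card_F_le x T hi' hi)

/-- number of items with value above `T` -/
noncomputable def u (x : Fin n → ℝ) (T : ℝ) : ℕ := by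
  classical
  exact (univ.filter (fun i => T < x i)).card

lemma card_F {x : Fin n → ℝ} {T : ℝ} {i : Fin n} (hi : T < x i) :
    u x T * (F x T i).card = n.factorial := by
  classical
  have h1 : ∑ i' ∈ univ.filter (fun i => T < x i), (F x T i').card
      = u x T * (F x T i).card := by
    rw [Finset.sum_congr rfl (g := fun _ => (F x T i).card)]
    · simp [u]
    · intro i' hi'
      exact card_F_eq x T (by simpa using hi') hi
  rw [← h1, ← Finset.card_biUnion]
  · have : (univ.filter (fun i => T < x i)).biUnion (fun i' => F x T i') = univ := by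
      rw [Finset.eq_univ_iff_forall]
      intro σ
      rw [mem_biUnion]
      have hne : (univ.filter (fun j : Fin n => T < x (σ j))).Nonempty :=
        ⟨σ.symm i, by simp [hi]⟩
      refine ⟨σ ((univ.filter (fun j : Fin n => T < x (σ j))).min' hne), ?_, ?_⟩
      · have := Finset.min'_mem _ hne
        simpa using this
      · rw [mem_F]
        intro j hj
        by_contra hcon
        push Not at hcon
        have := Finset.min'_le (univ.filter (fun j : Fin n => T < x (σ j))) j (by simp [hcon])
        simp only [Equiv.symm_apply_apply] at hj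
        exact absurd hj (not_lt.2 this)
    rw [this, Finset.card_univ, Fintype.card_perm, Fintype.card_fin]
  · intro a ha c hc hac
    rw [Function.onFun, Finset.disjoint_left]
    intro σ h1 h2
    have ha' : T < x a := by simpa using ha
    have hc' : T < x c := by simpa using hc
    have h1' := mem_F.1 h1
    have h2' := mem_F.1 h2
    rcases lt_trichotomy (σ.symm a) (σ.symm c) with h | h | h
    · have := h2' _ h
      simp at this
      linarith
    · exact hac (σ.symm.injective h)
    · have := h1' _ h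
      simp at this
      linarith

/-- For an item above the threshold: sum over times of the number of good orderings. -/
lemma sum_card_Gd {x : Fin n → ℝ} (hx : Function.Injective x) (m : ℕ) {T : ℝ} {i : Fin n}
    (hi : T < x i) :
    (n.factorial : ℝ) / u x T * ((∑ k : Fin n, b m k) / n) ≤
      ∑ k, ((Gd m x T i k).card : ℝ) := by
  classical
  have hn : 0 < n := lt_of_le_of_lt (Nat.zero_le _) i.2
  have hnR : (0 : ℝ) < n := by exact_mod_cast hn
  simp_rw [card_Gd hx]
  have hmono : Monovary (fun k : Fin n => ((N x T i k).card : ℝ)) (fun k : Fin n => b m k) := by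
    intro k k' hkk'
    have hlt : k' ≤ k := by
      by_contra hcon
      push Not at hcon
      exact absurd hkk' (not_lt.2 (b_antitone m hcon.le))
    show ((N x T i k).card : ℝ) ≤ ((N x T i k').card : ℝ)
    exact_mod_cast card_N_anti x T i hlt
  have hch := hmono.sum_mul_sum_le_card_mul_sum
  have hsum : (∑ k, ((N x T i k).card : ℝ)) = (F x T i).card := by
    exact_mod_cast sum_card_N x T i
  rw [hsum, Fintype.card_fin] at hch
  have hF : (u x T : ℝ) * (F x T i).card = n.factorial := by exact_mod_cast card_F hi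
  have hu : (0 : ℝ) < u x T := by
    have : 0 < u x T := by
      rcases Nat.eq_zero_or_pos (u x T) with h | h
      · rw [h] at hF
        simp at hF
        exact absurd hF.symm (by positivity)
      · exact h
    exact_mod_cast this
  have h1 : (n.factorial : ℝ) / u x T = (F x T i).card := by
    rw [← hF]; field_simp
  rw [h1, mul_div_assoc', div_le_iff₀ hnR]
  calc ((F x T i).card : ℝ) * ∑ k : Fin n, b m k ≤ n * ∑ k, ((N x T i k).card : ℝ) * b m k := hch
    _ = _ := by ring

lemma card_N_top {x : Fin n → ℝ} {T : ℝ} (hT : ∀ i, x i ≤ T) (i k : Fin n) :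
    n * (N x T i k).card = n.factorial := by
  classical
  have h1 : ∀ k k' : Fin n, (N x T i k).card ≤ (N x T i k').card := by
    intro k k'
    apply Finset.card_le_card_of_injOn (fun σ => σ * Equiv.swap k k')
    · intro σ hσ
      have hσ' := mem_N.1 (Finset.mem_coe.1 hσ)
      apply Finset.mem_coe.2
      rw [mem_N]
      exact ⟨by simp [hσ'.1], fun j _ => hT _⟩
    · intro σ _ τ _ h
      exact mul_right_cancel h
  have h2 : ∑ k', (N x T i k').card = n * (N x T i k).card := by
    rw [Finset.sum_congr rfl (g := fun _ => (N x T i k).card)]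
    · simp
    · intro k' _
      exact le_antisymm (h1 _ _) (h1 _ _)
  rw [← h2, sum_card_N]
  have : F x T i = univ := by
    rw [Finset.eq_univ_iff_forall]
    intro σ
    rw [mem_F]
    exact fun j _ => hT _
  rw [this, Finset.card_univ, Fintype.card_perm, Fintype.card_fin]


end Counting

/-! ### The algorithm -/

section Alg

/-- the start of the second phase -/
def phase (n : ℕ) : ℕ := n - (n + 9) / 10

/-- the algorithm -/
noncomputable def alg : Algorithm where
  query := fun _ => 153 / 250
  query_mem := fun _ => by constructor <;> norm_num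
  accept := fun n k => {p | p.1 < p.2 (Fin.last k) ∨
    (phase n ≤ k ∧ ∀ j : Fin k, p.2 j.castSucc < p.2 (Fin.last k))}
  measurable_accept := by
    intro n k
    apply MeasurableSet.union
    · exact measurableSet_lt measurable_fst (by fun_prop)
    · by_cases h : phase n ≤ k
      · have h1 : {p : ℝ × (Fin (k + 1) → ℝ) | phase n ≤ k ∧
            ∀ j : Fin k, p.2 j.castSucc < p.2 (Fin.last k)} =
            ⋂ j : Fin k, {p : ℝ × (Fin (k + 1) → ℝ) | p.2 j.castSucc < p.2 (Fin.last k)} := by
          ext p; simp [h]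
        have h2 : MeasurableSet (⋂ j : Fin k,
            {p : ℝ × (Fin (k + 1) → ℝ) | p.2 j.castSucc < p.2 (Fin.last k)}) :=
          MeasurableSet.iInter fun j => measurableSet_lt (by fun_prop) (by fun_prop)
        rw [← h1] at h2
        exact h2
      · have h1 : {p : ℝ × (Fin (k + 1) → ℝ) | phase n ≤ k ∧
            ∀ j : Fin k, p.2 j.castSucc < p.2 (Fin.last k)} = ∅ := by
          ext p; simp [h]
        have h2 : MeasurableSet (∅ : Set (ℝ × (Fin (k + 1) → ℝ))) := MeasurableSet.empty
        rw [← h1] at h2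
        exact h2

lemma alg_accepts {n : ℕ} (v : ℝ) (y : Fin n → ℝ) (k : Fin n) :
    alg.accepts v y k ↔ (v < y k ∨ (phase n ≤ k ∧ ∀ j < k, y j < y k)) := by
  unfold Algorithm.accepts alg seen
  simp only [Set.mem_ofPred_eq]
  constructor
  · rintro (h | ⟨h1, h2⟩)
    · left; exact h
    · right
      refine ⟨h1, fun j hj => ?_⟩
      have := h2 ⟨j.val, Fin.lt_def.1 hj⟩
      simpa using this
  · rintro (h | ⟨h1, h2⟩)
    · left; exact h
    · right
      refine ⟨h1, fun j => ?_⟩
      have := h2 ⟨j.val, lt_trans j.isLt k.isLt⟩ (Fin.lt_def.2 j.isLt)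
      simpa using this

variable {n : ℕ}

/-- f1 -/
noncomputable def f1 (x : Fin n → ℝ) (T : ℝ) : ℝ :=
  ∑ i, if T < x i then x i / (u x T : ℝ) else 0

open Classical in
/-- f0 -/
noncomputable def f0 (x : Fin n → ℝ) (T : ℝ) : ℝ :=
  if ∀ i, x i ≤ T then ⨆ i, x i else 0

open Classical in
/-- stop condition used in the lower bound -/
def stopc (m : ℕ) (x : Fin n → ℝ) (T : ℝ) (i k : Fin n) (σ : Equiv.Perm (Fin n)) : Prop :=
  σ ∈ Gd m x T i k ∧ (T < x i ∨ (m ≤ k ∧ ∀ j, x j ≤ x i))

lemma stop_of_stopc {x : Fin n → ℝ} (hx : Function.Injective x) {T : ℝ} {i k : Fin n}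
    {σ : Equiv.Perm (Fin n)} (h : stopc (phase n) x T i k σ) :
    alg.accepts T (fun k => x (σ k)) k ∧ ∀ j < k, ¬ alg.accepts T (fun k => x (σ k)) j := by
  obtain ⟨hG, hi⟩ := h
  rw [mem_Gd] at hG
  obtain ⟨⟨hki, hle⟩, hk⟩ := hG
  refine ⟨?_, ?_⟩
  · rw [alg_accepts]
    rcases hi with hi | ⟨hm, hmax⟩
    · left; simpa [hki] using hi
    · right
      refine ⟨hm, fun j hj => ?_⟩
      have h1 := hmax (σ j)
      have h2 : x (σ j) ≠ x i := by
        intro h
        have := hx h
        rw [← hki] at this
        exact absurd (σ.injective this) (ne_of_lt hj)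
      have := lt_of_le_of_ne h1 h2
      simpa [hki] using this
  · intro j hj
    rw [alg_accepts]
    push Not
    refine ⟨hle j hj, fun hm => ?_⟩
    rcases hk with hk | ⟨p, hpk, hpm, hmax⟩
    · exfalso
      have := Fin.lt_def.1 hj
      omega
    · exact ⟨p, Fin.lt_def.2 (lt_of_lt_of_le hpm hm), hmax j hj⟩

open Classical in
lemma sum_gain_ge {x : Fin n → ℝ} (hx : Function.Injective x) (hx0 : ∀ i, 0 ≤ x i) (T : ℝ) :
    ∑ i, ∑ k, ((univ.filter (fun σ => stopc (phase n) x T i k σ)).card : ℝ) * x i ≤
      ∑ σ : Equiv.Perm (Fin n), alg.gain T (fun k => x (σ k)) := by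
  have h1 : ∀ σ : Equiv.Perm (Fin n),
      ∑ k, ∑ i, (if stopc (phase n) x T i k σ then x i else 0) ≤
        alg.gain T (fun k => x (σ k)) := by
    intro σ
    unfold Algorithm.gain
    apply Finset.sum_le_sum
    intro k _
    by_cases h : alg.accepts T (fun k => x (σ k)) k ∧
        ∀ j < k, ¬ alg.accepts T (fun k => x (σ k)) j
    · rw [if_pos h]
      calc ∑ i, (if stopc (phase n) x T i k σ then x i else 0)
          ≤ ∑ i, (if i = σ k then x i else 0) := by
            apply Finset.sum_le_sum
            intro i _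
            by_cases hi : stopc (phase n) x T i k σ
            · have h' : i = σ k := ((mem_Gd.1 hi.1).1.1).symm
              rw [if_pos hi, if_pos h']
            · rw [if_neg hi]
              split_ifs
              · exact hx0 _
              · exact le_rfl
        _ = x (σ k) := by simp
    · rw [if_neg h]
      apply le_of_eq
      apply Finset.sum_eq_zero
      intro i _
      rw [if_neg]
      intro hc
      exact h (stop_of_stopc hx hc)
  calc ∑ i, ∑ k, ((univ.filter (fun σ => stopc (phase n) x T i k σ)).card : ℝ) * x i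
      = ∑ σ : Equiv.Perm (Fin n), ∑ k, ∑ i, (if stopc (phase n) x T i k σ then x i else 0) := by
        rw [Finset.sum_comm]
        rw [Finset.sum_comm (γ := Equiv.Perm (Fin n))]
        apply Finset.sum_congr rfl
        intro k _
        rw [Finset.sum_comm (γ := Equiv.Perm (Fin n))]
        apply Finset.sum_congr rfl
        intro i _
        rw [← Finset.sum_filter, Finset.sum_const, nsmul_eq_mul]
    _ ≤ _ := Finset.sum_le_sum fun σ _ => h1 σ

/-- coefficient of f1 -/
noncomputable def beta (n : ℕ) : ℝ := (∑ k : Fin n, b (phase n) k) / n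

open Classical in
/-- coefficient of f0 -/
noncomputable def gam (n : ℕ) : ℝ := (∑ k : Fin n, if phase n ≤ k then b (phase n) k else 0) / n

open Classical in
lemma avg_gain (hn : 0 < n) {x : Fin n → ℝ} (hx : Function.Injective x) (hx0 : ∀ i, 0 ≤ x i)
    (T : ℝ) :
    (n.factorial : ℝ) * (beta n * f1 x T + gam n * f0 x T) ≤
      ∑ σ : Equiv.Perm (Fin n), alg.gain T (fun k => x (σ k)) := by
  have hnR : (0 : ℝ) < n := by exact_mod_cast hn
  refine le_trans ?_ (sum_gain_ge hx hx0 T)
  by_cases hT : ∀ i, x i ≤ T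
  · have h1 : f1 x T = 0 := by
      unfold f1
      apply Finset.sum_eq_zero
      intro i _
      rw [if_neg (not_lt.2 (hT i))]
    have h2 : f0 x T = ⨆ i, x i := by unfold f0; rw [if_pos hT]
    have : Nonempty (Fin n) := ⟨⟨0, hn⟩⟩
    obtain ⟨i0, hi0⟩ := exists_eq_ciSup_of_finite (f := x)
    have hmax : ∀ j, x j ≤ x i0 := by
      intro j
      rw [hi0]
      exact le_ciSup (Set.finite_range x).bddAbove j
    rw [h1, h2, ← hi0, mul_zero, zero_add]
    calc (n.factorial : ℝ) * (gam n * x i0)
        = ∑ k, ((univ.filter (fun σ => stopc (phase n) x T i0 k σ)).card : ℝ) * x i0 := by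
          rw [← Finset.sum_mul, ← mul_assoc]
          congr 1
          unfold gam
          rw [mul_div_assoc', eq_comm, eq_div_iff hnR.ne', Finset.sum_mul, Finset.mul_sum]
          apply Finset.sum_congr rfl
          intro k _
          by_cases hk : phase n ≤ k
          · have : univ.filter (fun σ => stopc (phase n) x T i0 k σ) = Gd (phase n) x T i0 k := by
              ext σ
              rw [mem_filter]
              exact ⟨fun h => h.2.1, fun h => ⟨mem_univ _, h, Or.inr ⟨hk, hmax⟩⟩⟩
            rw [this, if_pos hk, card_Gd hx]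
            have := card_N_top hT i0 k
            have h3 : (n : ℝ) * (N x T i0 k).card = n.factorial := by exact_mod_cast this
            rw [← h3]; ring
          · have : univ.filter (fun σ => stopc (phase n) x T i0 k σ) = ∅ := by
              rw [Finset.filter_eq_empty_iff]
              intro σ _ h
              rcases h.2 with h | h
              · exact absurd h (not_lt.2 (hT _))
              · exact hk h.1
            rw [this, if_neg hk]; simp
      _ ≤ _ := by
          apply Finset.single_le_sum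
            (f := fun i => ∑ k, ((univ.filter (fun σ => stopc (phase n) x T i k σ)).card : ℝ) * x i)
            _ (mem_univ i0)
          intro i _
          exact Finset.sum_nonneg fun k _ => mul_nonneg (Nat.cast_nonneg _) (hx0 i)
  · have h2 : f0 x T = 0 := by unfold f0; rw [if_neg hT]
    rw [h2, mul_zero, add_zero, f1, Finset.mul_sum, Finset.mul_sum]
    apply Finset.sum_le_sum
    intro i _
    by_cases hi : T < x i
    · rw [if_pos hi, ← Finset.sum_mul]
      have h3 := sum_card_Gd hx (phase n) hi
      have h4 : ∀ k, univ.filter (fun σ => stopc (phase n) x T i k σ) = Gd (phase n) x T i k := by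
        intro k
        ext σ
        rw [mem_filter]
        exact ⟨fun h => h.2.1, fun h => ⟨mem_univ _, h, Or.inl hi⟩⟩
      simp_rw [h4]
      calc (n.factorial : ℝ) * (beta n * (x i / (u x T : ℝ)))
          = ((n.factorial : ℝ) / u x T * ((∑ k : Fin n, b (phase n) k) / n)) * x i := by
            unfold beta; ring
        _ ≤ _ := mul_le_mul_of_nonneg_right h3 (hx0 i)
    · rw [if_neg hi]
      simp only [mul_zero]
      exact Finset.sum_nonneg fun k _ => mul_nonneg (Nat.cast_nonneg _) (hx0 i)


end Alg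

/-! ### Numerical coefficients -/

section Coef

lemma sum_one_sub_b (m w : ℕ) :
    ∑ k ∈ range (m + w), (1 - b m k) ≤ (w : ℝ) * (w - 1) / (2 * (m + 1)) := by
  induction w with
  | zero =>
    rw [Finset.sum_eq_zero]
    · simp
    · intro k hk
      have : k ≤ m := by
        have := Finset.mem_range.1 hk
        omega
      simp [b, this]
  | succ w ih =>
    rw [← add_assoc, Finset.sum_range_succ]
    have hm : (0 : ℝ) < (m : ℝ) + 1 := by positivity
    have h1 : 1 - b m (m + w) ≤ (w : ℝ) / (m + 1) := by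
      rcases Nat.eq_zero_or_pos w with h | h
      · subst h; simp [b]
      · have h2 : ¬ (m + w ≤ m) := by omega
        have h3 : (0 : ℝ) < (m : ℝ) + w := by positivity
        rw [b, if_neg h2]
        push_cast
        rw [one_sub_div h3.ne', add_sub_cancel_left]
        have h4 : (1 : ℝ) ≤ w := by exact_mod_cast h
        gcongr
    calc ∑ k ∈ range (m + w), (1 - b m k) + (1 - b m (m + w))
        ≤ (w : ℝ) * (w - 1) / (2 * (m + 1)) + (w : ℝ) / (m + 1) := add_le_add ih h1
      _ = ((w + 1 : ℕ) : ℝ) * ((w + 1 : ℕ) - 1) / (2 * (m + 1)) := by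
        push_cast
        field_simp
        ring

lemma phase_le (n : ℕ) : phase n ≤ n := Nat.sub_le _ _

lemma phase_add (n : ℕ) (hn : 1 ≤ n) : phase n + (n + 9) / 10 = n := by
  unfold phase; omega

lemma phase_bound {n : ℕ} (hn : 1 ≤ n) : (phase n : ℝ) ≤ 9 / 10 * n := by
  have : 10 * phase n ≤ 9 * n := by unfold phase; omega
  have h : (10 : ℝ) * phase n ≤ 9 * n := by exact_mod_cast this
  linarith

lemma sum_b_ge {n : ℕ} (hn : 1 ≤ n) : 197 / 200 * (n : ℝ) ≤ ∑ k : Fin n, b (phase n) k := by
  set m := phase n with hm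
  set w := (n + 9) / 10 with hw
  have hmw : m + w = n := phase_add n hn
  have h1 := sum_one_sub_b m w
  rw [hmw, Finset.sum_sub_distrib] at h1
  simp only [Finset.sum_const, Finset.card_range, nsmul_eq_mul, mul_one] at h1
  rw [Fin.sum_univ_eq_sum_range (fun k => b m k) n]
  have hw1 : (1 : ℝ) ≤ w := by
    have : 1 ≤ w := by omega
    exact_mod_cast this
  have hw2 : (10 : ℝ) * w ≤ n + 9 := by
    have : 10 * w ≤ n + 9 := by omega
    exact_mod_cast this
  have hmR : (m : ℝ) = n - w := by
    rw [eq_sub_iff_add_eq]; exact_mod_cast hmw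
  have hm0 : (0 : ℝ) ≤ m := Nat.cast_nonneg _
  have hnR : (1 : ℝ) ≤ n := by exact_mod_cast hn
  have h2 : (w : ℝ) * (w - 1) / (2 * (m + 1)) ≤ 3 / 200 * n := by
    rw [div_le_iff₀ (by positivity), hmR]
    have h3 : (w : ℝ) * (w - 1) ≤ (n + 9) / 10 * ((n - 1) / 10) := by
      apply mul_le_mul <;> linarith
    have h4 : (9 * (n : ℝ) + 1) / 10 ≤ n - w + 1 := by linarith
    have h5 : 3 / 200 * (n : ℝ) * (2 * ((9 * n + 1) / 10)) ≤ 3 / 200 * n * (2 * (n - w + 1)) := by
      gcongr
    nlinarith [sq_nonneg ((n : ℝ) - 7 / 3)]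
  linarith

lemma beta_ge {n : ℕ} (hn : 1 ≤ n) : 197 / 200 ≤ beta n := by
  have hnR : (0 : ℝ) < n := by exact_mod_cast hn
  unfold beta
  rw [le_div_iff₀ hnR]
  exact sum_b_ge hn

lemma beta_le {n : ℕ} (hn : 1 ≤ n) : beta n ≤ 1 := by
  have hnR : (0 : ℝ) < n := by exact_mod_cast hn
  unfold beta
  rw [div_le_one hnR]
  calc ∑ k : Fin n, b (phase n) k ≤ ∑ _k : Fin n, (1 : ℝ) :=
        Finset.sum_le_sum fun k _ => b_le_one _ _
    _ = n := by simp

lemma gam_ge {n : ℕ} (hn : 1 ≤ n) : 17 / 200 ≤ gam n := by
  classical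
  have hnR : (0 : ℝ) < n := by exact_mod_cast hn
  unfold gam
  rw [le_div_iff₀ hnR]
  have h1 := sum_b_ge hn
  have h2 : ∑ k : Fin n, b (phase n) k ≤
      (∑ k : Fin n, if phase n ≤ k then b (phase n) k else 0) +
      ∑ k : Fin n, (if (k : ℕ) < phase n then (1 : ℝ) else 0) := by
    rw [← Finset.sum_add_distrib]
    apply Finset.sum_le_sum
    intro k _
    by_cases h : phase n ≤ k
    · rw [if_pos h, if_neg (by omega)]; simp
    · rw [if_neg h, if_pos (by omega), zero_add]
      exact b_le_one _ _
  have h3 : ∑ k : Fin n, (if (k : ℕ) < phase n then (1 : ℝ) else 0) ≤ phase n := by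
    rw [Fin.sum_univ_eq_sum_range (fun k => if k < phase n then (1 : ℝ) else 0) n,
      ← Finset.sum_filter, Finset.sum_const, nsmul_eq_mul, mul_one]
    have : ((range n).filter (fun k => k < phase n)).card ≤ phase n := by
      calc ((range n).filter (fun k => k < phase n)).card ≤ (range (phase n)).card := by
            apply Finset.card_le_card
            intro k hk
            simp only [mem_filter, mem_range] at hk ⊢
            exact hk.2
        _ = phase n := Finset.card_range _
    exact_mod_cast this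
  have h4 := phase_bound hn
  have h5 : (∑ k : Fin n, if phase n ≤ (k : ℕ) then b (phase n) k else 0) =
    ∑ k : Fin n, @ite ℝ (phase n ≤ (k : ℕ)) (Classical.propDecidable _) (b (phase n) k) 0 := by
    apply Finset.sum_congr rfl
    intro k _
    congr
  linarith


end Coef

/-! ### Independence -/

section Prob
open ProbabilityTheory

variable {n : ℕ} (D : Fin n → Measure ℝ) [∀ i, IsProbabilityMeasure (D i)]

lemma ae_ne (hA : ∀ i t, D i {t} = 0) {i j : Fin n} (hij : i ≠ j) :
    ∀ᵐ x ∂(Measure.pi D), x i ≠ x j := by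
  have hind : IndepFun (fun x : Fin n → ℝ => x i) (fun x : Fin n → ℝ => x j) (Measure.pi D) :=
    (iIndepFun_pi (X := fun _ => (id : ℝ → ℝ)) (fun _ => aemeasurable_id)).indepFun hij
  have hmap := (indepFun_iff_map_prod_eq_prod_map_map (measurable_pi_apply i).aemeasurable
    (measurable_pi_apply j).aemeasurable).1 hind
  rw [(measurePreserving_eval D i).map_eq, (measurePreserving_eval D j).map_eq] at hmap
  have h0 : ((D i).prod (D j)) {p : ℝ × ℝ | p.1 = p.2} = 0 := by
    have hm : MeasurableSet {p : ℝ × ℝ | p.1 = p.2} :=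
      measurableSet_eq_fun measurable_fst measurable_snd
    rw [Measure.measure_prod_null hm]
    filter_upwards with t
    have : Prod.mk t ⁻¹' {p : ℝ × ℝ | p.1 = p.2} = {t} := by
      ext s
      simp [eq_comm]
    rw [this]
    exact hA j t
  rw [← hmap, Measure.map_apply (by fun_prop)
    (measurableSet_eq_fun measurable_fst measurable_snd)] at h0
  rw [ae_iff]
  simpa using h0

lemma ae_inj (hA : ∀ i t, D i {t} = 0) : ∀ᵐ x ∂(Measure.pi D), Function.Injective x := by
  have h : ∀ i j : Fin n, ∀ᵐ x ∂(Measure.pi D), i ≠ j → x i ≠ x j := by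
    intro i j
    by_cases hij : i = j
    · filter_upwards with x h; exact absurd hij h
    · filter_upwards [ae_ne D hA hij] with x hx _; exact hx
  have h2 : ∀ᵐ x ∂(Measure.pi D), ∀ i j : Fin n, i ≠ j → x i ≠ x j := by
    rw [ae_all_iff]; intro i; rw [ae_all_iff]; exact h i
  filter_upwards [h2] with x hx
  intro i j hij
  by_contra hne
  exact hx i j hne hij

lemma ae_nonneg (hD : ∀ i, D i (Set.Iio 0) = 0) : ∀ᵐ x ∂(Measure.pi D), ∀ i, 0 ≤ x i := by
  rw [ae_all_iff]
  intro i
  have h1 : ∀ᵐ t ∂(D i), 0 ≤ t := by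
    rw [ae_iff]
    have : {a : ℝ | ¬ 0 ≤ a} = Set.Iio 0 := by ext a; simp
    rw [this]
    exact hD i
  exact (measurePreserving_eval D i).quasiMeasurePreserving.ae h1

lemma integrable_eval (hint : ∀ i, Integrable (fun t => t) (D i)) (i : Fin n) :
    Integrable (fun x : Fin n → ℝ => x i) (Measure.pi D) :=
  (measurePreserving_eval D i).integrable_comp_of_integrable (hint i)

lemma rpow_integral {a : ℝ} (ha0 : 0 < a) (ha1 : a < 1) :
    ∫ s in (0 : ℝ)..1, a ^ (1 - s) = (1 - a) / (- Real.log a) := by
  have hlog : Real.log a < 0 := Real.log_neg ha0 ha1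
  have h : ∀ s ∈ Set.uIcc (0 : ℝ) 1,
      HasDerivAt (fun s : ℝ => - (a ^ (1 - s) / Real.log a)) (a ^ (1 - s)) s := by
    intro s _
    have h1 := (Real.hasStrictDerivAt_const_rpow ha0 (1 - s)).hasDerivAt
    have h2 : HasDerivAt (fun s : ℝ => 1 - s) (-1) s := by
      simpa using (hasDerivAt_id s).const_sub 1
    have h3 := (h1.comp s h2).div_const (Real.log a)
    have h4 := h3.neg
    refine h4.congr_deriv ?_
    have hne : Real.log a ≠ 0 := hlog.ne
    field_simp
  rw [intervalIntegral.integral_eq_sub_of_hasDerivAt h]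
  · simp
    field_simp
    ring
  · apply Continuous.intervalIntegrable
    apply Continuous.rpow continuous_const (by fun_prop)
    intro s; left; exact ha0.ne'

/-- factor functions -/
noncomputable def gfac (T : ℝ) (i : Fin n) (s : ℝ) (j : Fin n) (t : ℝ) : ℝ :=
  if j = i then max (t - T) 0 else (if T < t then s else 1)

lemma prod_gfac (T : ℝ) (i : Fin n) (s : ℝ) (x : Fin n → ℝ) :
    ∏ j, gfac T i s j (x j) = max (x i - T) 0 * s ^ (u x T - (if T < x i then 1 else 0)) := by
  classical
  rw [← Finset.mul_prod_erase _ _ (Finset.mem_univ i)]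
  congr 1
  · simp [gfac]
  · have h1 : ∀ j ∈ univ.erase i, gfac T i s j (x j) = if T < x j then s else 1 := by
      intro j hj
      simp [gfac, (Finset.mem_erase.1 hj).1]
    rw [Finset.prod_congr rfl h1, Finset.prod_ite, Finset.prod_const, Finset.prod_const_one,
      mul_one]
    congr 1
    unfold u
    rw [Finset.filter_erase]
    by_cases hi : T < x i
    · rw [if_pos hi, Finset.card_erase_of_mem (by simp [hi])]
    · rw [if_neg hi, Finset.erase_eq_of_notMem (by simp [hi])]
      simp only [Nat.sub_zero]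

lemma u_pos {x : Fin n → ℝ} {T : ℝ} {i : Fin n} (hi : T < x i) : 0 < u x T := by
  classical
  unfold u
  exact Finset.card_pos.2 ⟨i, by simp [hi]⟩

lemma integral_prod_gfac (T : ℝ) (i : Fin n) (x : Fin n → ℝ) :
    ∫ s in (0 : ℝ)..1, ∏ j, gfac T i s j (x j) = max (x i - T) 0 / (u x T : ℝ) := by
  simp_rw [prod_gfac]
  rw [intervalIntegral.integral_const_mul, integral_pow]
  by_cases hi : T < x i
  · have hu := u_pos hi
    rw [if_pos hi]
    have : ((u x T - 1 : ℕ) : ℝ) + 1 = u x T := by
      have : u x T - 1 + 1 = u x T := Nat.sub_add_cancel hu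
      exact_mod_cast this
    rw [this]
    simp
    rw [div_eq_mul_inv]
  · have : max (x i - T) 0 = 0 := max_eq_right (by linarith)
    rw [this]; simp

lemma measurable_gfac (T : ℝ) (i j : Fin n) :
    Measurable (fun p : ℝ × ℝ => gfac T i p.1 j p.2) := by
  unfold gfac
  by_cases h : j = i
  · simp only [h, if_true]; fun_prop
  · simp only [h, if_false]
    exact Measurable.ite (measurableSet_lt measurable_const measurable_snd) measurable_fst
      measurable_const

omit [∀ i, IsProbabilityMeasure (D i)] in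
lemma integral_gfac_self (T : ℝ) (i : Fin n) (s : ℝ) :
    ∫ t, gfac T i s i t ∂(D i) = ∫ t, max (t - T) 0 ∂(D i) := by
  simp [gfac]

lemma integral_gfac_ne (T : ℝ) {i j : Fin n} (hij : j ≠ i) (s : ℝ) :
    ∫ t, gfac T i s j t ∂(D j) = 1 - (1 - s) * (D j).real (Set.Ioi T) := by
  have h1 : ∀ t, gfac T i s j t = 1 - Set.indicator (Set.Ioi T) (fun _ => 1 - s) t := by
    intro t
    unfold gfac
    rw [if_neg hij]
    by_cases ht : T < t
    · rw [if_pos ht, Set.indicator_of_mem (by simpa using ht)]; ring
    · rw [if_neg ht, Set.indicator_of_notMem (by simpa using ht)]; ring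
  simp_rw [h1]
  rw [integral_sub (integrable_const _)]
  · rw [integral_indicator measurableSet_Ioi]
    simp
    ring
  · exact (integrable_const _).indicator measurableSet_Ioi

lemma prod_lower {T q s : ℝ} (hs0 : 0 ≤ s) (hs1 : s ≤ 1)
    (hq1 : q < 1) (hD : ∏ j, (1 - (D j).real (Set.Ioi T)) = 1 - q) (i : Fin n) :
    (1 - q) ^ (1 - s) ≤ ∏ j ∈ univ.erase i, (1 - (1 - s) * (D j).real (Set.Ioi T)) := by
  have hp0 : ∀ j, 0 ≤ (D j).real (Set.Ioi T) := fun j => measureReal_nonneg
  have hp1 : ∀ j, (D j).real (Set.Ioi T) ≤ 1 := fun j => measureReal_le_one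
  have h1 : (1 - q) ≤ ∏ j ∈ univ.erase i, (1 - (D j).real (Set.Ioi T)) := by
    rw [← hD, ← Finset.mul_prod_erase _ _ (Finset.mem_univ i)]
    have h2 : 0 ≤ ∏ j ∈ univ.erase i, (1 - (D j).real (Set.Ioi T)) :=
      Finset.prod_nonneg fun j _ => by linarith [hp1 j]
    have h3 := mul_le_mul_of_nonneg_right (show 1 - (D i).real (Set.Ioi T) ≤ 1 by linarith [hp0 i])
      h2
    rw [one_mul] at h3
    exact h3
  calc (1 - q) ^ (1 - s)
      ≤ (∏ j ∈ univ.erase i, (1 - (D j).real (Set.Ioi T))) ^ (1 - s) :=
        Real.rpow_le_rpow (by linarith) h1 (by linarith)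
    _ = ∏ j ∈ univ.erase i, (1 - (D j).real (Set.Ioi T)) ^ (1 - s) := by
        rw [← Real.finsetProd_rpow]
        intro j _
        linarith [hp1 j]
    _ ≤ _ := by
        apply Finset.prod_le_prod
        · intro j _
          exact Real.rpow_nonneg (by linarith [hp1 j]) _
        · intro j _
          have := rpow_one_add_le_one_add_mul_self (s := - (D j).real (Set.Ioi T))
            (by linarith [hp1 j]) (p := 1 - s) (by linarith) (by linarith)
          calc (1 - (D j).real (Set.Ioi T)) ^ (1 - s)
              = (1 + - (D j).real (Set.Ioi T)) ^ (1 - s) := by rw [sub_eq_add_neg]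
            _ ≤ 1 + (1 - s) * - (D j).real (Set.Ioi T) := this
            _ = _ := by ring

lemma integral_lower {T q s : ℝ} (hs0 : 0 ≤ s) (hs1 : s ≤ 1)
    (hq1 : q < 1) (hD : ∏ j, (1 - (D j).real (Set.Ioi T)) = 1 - q) (i : Fin n) :
    (∫ t, max (t - T) 0 ∂(D i)) * (1 - q) ^ (1 - s) ≤
      ∫ x, ∏ j, gfac T i s j (x j) ∂(Measure.pi D) := by
  rw [integral_fintype_prod_eq_prod (𝕜 := ℝ) (fun j t => gfac T i s j t),
    ← Finset.mul_prod_erase _ _ (Finset.mem_univ i), integral_gfac_self]
  have h1 : ∏ j ∈ univ.erase i, ∫ t, gfac T i s j t ∂(D j) =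
      ∏ j ∈ univ.erase i, (1 - (1 - s) * (D j).real (Set.Ioi T)) :=
    Finset.prod_congr rfl fun j hj => integral_gfac_ne D T (Finset.mem_erase.1 hj).1 s
  rw [h1]
  exact mul_le_mul_of_nonneg_left (prod_lower D hs0 hs1 hq1 hD i)
    (integral_nonneg fun t => le_max_right _ _)

/-- clamp to `[0,1]` -/
noncomputable def cl (s : ℝ) : ℝ := max 0 (min s 1)

lemma cl_of_mem {s : ℝ} (h0 : 0 ≤ s) (h1 : s ≤ 1) : cl s = s := by
  unfold cl; rw [min_eq_left h1, max_eq_right h0]

lemma cl_nonneg (s : ℝ) : 0 ≤ cl s := le_max_left _ _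

lemma cl_le (s : ℝ) : cl s ≤ 1 := max_le zero_le_one (min_le_right _ _)

lemma key_lower (i : Fin n) {T q : ℝ} (hq0 : 0 < q) (hq1 : q < 1)
    (hD : ∏ j, (1 - (D j).real (Set.Ioi T)) = 1 - q)
    (hint : Integrable (fun t => t) (D i)) :
    q / (-Real.log (1 - q)) * ∫ t, max (t - T) 0 ∂(D i) ≤
      ∫ x, max (x i - T) 0 / (u x T : ℝ) ∂(Measure.pi D) := by
  have hint' : Integrable (fun t => max (t - T) 0) (D i) := (hint.sub (integrable_const T)).pos_part
  have hmeas : Measurable (fun p : ℝ × (Fin n → ℝ) => ∏ j, gfac T i (cl p.1) j (p.2 j)) := by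
    apply Finset.measurable_fun_prod
    intro j _
    have : (fun p : ℝ × (Fin n → ℝ) => gfac T i (cl p.1) j (p.2 j)) =
      (fun p : ℝ × ℝ => gfac T i p.1 j p.2) ∘ (fun p : ℝ × (Fin n → ℝ) => (cl p.1, p.2 j)) := rfl
    rw [this]
    refine (measurable_gfac T i j).comp ?_
    unfold cl
    fun_prop
  have hI : Integrable (Function.uncurry fun (s : ℝ) (x : Fin n → ℝ) =>
      ∏ j, gfac T i (cl s) j (x j)) ((volume.restrict (Set.Ioc (0 : ℝ) 1)).prod (Measure.pi D)) := by
    have hdom : Integrable (fun p : ℝ × (Fin n → ℝ) => max (p.2 i - T) 0)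
        ((volume.restrict (Set.Ioc (0 : ℝ) 1)).prod (Measure.pi D)) := by
      have : Integrable (fun x : Fin n → ℝ => max (x i - T) 0) (Measure.pi D) :=
        (measurePreserving_eval D i).integrable_comp_of_integrable hint'
      exact this.comp_snd _
    refine hdom.mono' hmeas.aestronglyMeasurable ?_
    filter_upwards with p
    show ‖∏ j, gfac T i (cl p.1) j (p.2 j)‖ ≤ _
    rw [prod_gfac, norm_mul]
    have h1 : ‖max (p.2 i - T) 0‖ = max (p.2 i - T) 0 := by
      rw [Real.norm_eq_abs, abs_of_nonneg (le_max_right _ _)]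
    rw [h1]
    have h2 : ‖cl p.1 ^ (u p.2 T - (if T < p.2 i then 1 else 0))‖ ≤ 1 := by
      rw [norm_pow, Real.norm_eq_abs, abs_of_nonneg (cl_nonneg _)]
      exact pow_le_one₀ (cl_nonneg _) (cl_le _)
    calc max (p.2 i - T) 0 * ‖cl p.1 ^ (u p.2 T - (if T < p.2 i then 1 else 0))‖
        ≤ max (p.2 i - T) 0 * 1 := mul_le_mul_of_nonneg_left h2 (le_max_right _ _)
      _ = _ := mul_one _
  have hswap := integral_integral_swap hI
  have hR : ∫ x, (∫ s in Set.Ioc (0 : ℝ) 1, ∏ j, gfac T i (cl s) j (x j)) ∂(Measure.pi D) =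
      ∫ x, max (x i - T) 0 / (u x T : ℝ) ∂(Measure.pi D) := by
    congr 1
    ext x
    rw [← integral_prod_gfac T i x, intervalIntegral.integral_of_le zero_le_one]
    apply setIntegral_congr_fun measurableSet_Ioc
    intro s hs
    simp only
    rw [cl_of_mem hs.1.le hs.2]
  have hL : q / (-Real.log (1 - q)) * ∫ t, max (t - T) 0 ∂(D i) ≤
      ∫ s in Set.Ioc (0 : ℝ) 1, ∫ x, ∏ j, gfac T i (cl s) j (x j) ∂(Measure.pi D) := by
    have e1 : q / (-Real.log (1 - q)) * ∫ t, max (t - T) 0 ∂(D i) =
        ∫ s in Set.Ioc (0 : ℝ) 1, (∫ t, max (t - T) 0 ∂(D i)) * (1 - q) ^ (1 - s) := by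
      rw [integral_const_mul, ← intervalIntegral.integral_of_le zero_le_one,
        rpow_integral (by linarith) (by linarith), sub_sub_cancel]
      ring
    rw [e1]
    apply setIntegral_mono_on
    · apply Integrable.const_mul
      apply Continuous.integrableOn_Ioc
      apply Continuous.rpow continuous_const (by fun_prop)
      intro s; left; linarith
    · exact hI.integral_prod_left
    · exact measurableSet_Ioc
    · intro s hs
      rw [cl_of_mem hs.1.le hs.2]
      exact integral_lower D hs.1.le hs.2 hq1 hD i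
  rw [← hR, ← hswap]
  exact hL


end Prob

section Final

variable {n : ℕ}

lemma measurable_top (_hn : 0 < n) : Measurable (fun x : Fin n → ℝ => ⨆ i, x i) :=
  Measurable.iSup fun i => measurable_pi_apply i

lemma le_top (x : Fin n → ℝ) (i : Fin n) : x i ≤ ⨆ i, x i :=
  le_ciSup (Set.finite_range x).bddAbove i

lemma top_le (hn : 0 < n) {x : Fin n → ℝ} {a : ℝ} (h : ∀ i, x i ≤ a) : ⨆ i, x i ≤ a := by
  have : Nonempty (Fin n) := ⟨⟨0, hn⟩⟩
  exact ciSup_le h

lemma exists_top (hn : 0 < n) (x : Fin n → ℝ) : ∃ i, x i = ⨆ i, x i := by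
  have : Nonempty (Fin n) := ⟨⟨0, hn⟩⟩
  exact exists_eq_ciSup_of_finite

lemma u_cast (x : Fin n → ℝ) (T : ℝ) : (u x T : ℝ) = ∑ j, if T < x j then (1 : ℝ) else 0 := by
  classical
  unfold u
  rw [Finset.card_filter]
  push_cast
  apply Finset.sum_congr rfl
  intro j _
  congr 1

lemma measurable_u (T : ℝ) : Measurable (fun x : Fin n → ℝ => (u x T : ℝ)) := by
  simp_rw [u_cast]
  apply Finset.measurable_fun_sum
  intro j _
  exact Measurable.ite (measurableSet_lt measurable_const (measurable_pi_apply j))
    measurable_const measurable_const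

lemma measurableSet_all_le (T : ℝ) : MeasurableSet {x : Fin n → ℝ | ∀ i, x i ≤ T} := by
  have : {x : Fin n → ℝ | ∀ i, x i ≤ T} = ⋂ i, {x : Fin n → ℝ | x i ≤ T} := by ext; simp
  rw [this]
  exact MeasurableSet.iInter fun i => measurableSet_le (measurable_pi_apply i) measurable_const

open Classical in
lemma f1_eq (x : Fin n → ℝ) (T : ℝ) :
    f1 x T = T * (1 - Set.indicator {x : Fin n → ℝ | ∀ i, x i ≤ T} (fun _ => (1 : ℝ)) x) +
      ∑ i, max (x i - T) 0 / (u x T : ℝ) := by
  by_cases h : ∀ i, x i ≤ T
  · have h1 : f1 x T = 0 := by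
      unfold f1
      apply Finset.sum_eq_zero
      intro i _
      rw [if_neg (not_lt.2 (h i))]
    have h2 : ∑ i, max (x i - T) 0 / (u x T : ℝ) = 0 := by
      apply Finset.sum_eq_zero
      intro i _
      rw [max_eq_right (by linarith [h i])]; simp
    rw [h1, h2, Set.indicator_of_mem (by exact h)]
    ring
  · rw [Set.indicator_of_notMem (by exact h)]
    push Not at h
    obtain ⟨i0, hi0⟩ := h
    have hu : (u x T : ℝ) ≠ 0 := by
      have := u_pos hi0
      exact_mod_cast this.ne'
    have h1 : ∀ i, (if T < x i then x i / (u x T : ℝ) else 0) =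
        T / (u x T : ℝ) * (if T < x i then (1 : ℝ) else 0) + max (x i - T) 0 / (u x T : ℝ) := by
      intro i
      by_cases hi : T < x i
      · rw [if_pos hi, if_pos hi, max_eq_left (by linarith)]
        field_simp
        ring
      · rw [if_neg hi, if_neg hi, max_eq_right (by linarith)]
        simp
    unfold f1
    rw [Finset.sum_congr rfl fun i _ => h1 i, Finset.sum_add_distrib, ← Finset.mul_sum, ← u_cast]
    field_simp
    ring

lemma measurable_gain (A : Algorithm) (v : ℝ) :
    Measurable (fun y : Fin n → ℝ => A.gain v y) := by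
  classical
  unfold Algorithm.gain
  have hm : ∀ k : Fin n, MeasurableSet {y : Fin n → ℝ | A.accepts v y k} := by
    intro k
    have h2 : Measurable (fun y : Fin n → ℝ => (v, seen y k)) := by
      refine measurable_const.prodMk ?_
      unfold seen
      rw [measurable_pi_iff]
      intro j
      exact measurable_pi_apply _
    exact h2 (A.measurable_accept n k)
  apply Finset.measurable_fun_sum
  intro k _
  refine Measurable.ite ?_ (measurable_pi_apply k) measurable_const
  have : {y : Fin n → ℝ | A.accepts v y k ∧ ∀ j < k, ¬ A.accepts v y j} =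
      {y | A.accepts v y k} ∩ ⋂ j : Fin n, ⋂ _ : j < k, {y | A.accepts v y j}ᶜ := by
    ext y; simp
  rw [this]
  exact (hm k).inter (MeasurableSet.iInter fun j => MeasurableSet.iInter fun _ => (hm j).compl)

lemma gain_nonneg (A : Algorithm) (v : ℝ) {y : Fin n → ℝ} (hy : ∀ i, 0 ≤ y i) :
    0 ≤ A.gain v y := by
  classical
  unfold Algorithm.gain
  apply Finset.sum_nonneg
  intro k _
  split_ifs
  · exact hy k
  · exact le_rfl

lemma gain_abs_le (A : Algorithm) (v : ℝ) (y : Fin n → ℝ) :
    |A.gain v y| ≤ ∑ i, |y i| := by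
  classical
  unfold Algorithm.gain
  refine (Finset.abs_sum_le_sum_abs _ _).trans ?_
  apply Finset.sum_le_sum
  intro k _
  split_ifs
  · exact le_rfl
  · simp

variable (D : Fin n → Measure ℝ) [∀ i, IsProbabilityMeasure (D i)]

lemma integrable_sum_abs (hint : ∀ i, Integrable (fun t => t) (D i)) :
    Integrable (fun x : Fin n → ℝ => ∑ i, |x i|) (Measure.pi D) :=
  integrable_finsetSum _ fun i _ => (integrable_eval D hint i).abs

lemma integrable_gain (A : Algorithm) (v : ℝ) (hint : ∀ i, Integrable (fun t => t) (D i))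
    (σ : Equiv.Perm (Fin n)) :
    Integrable (fun x : Fin n → ℝ => A.gain v (fun k => x (σ k))) (Measure.pi D) := by
  refine (integrable_sum_abs D hint).mono' ?_ ?_
  · have h1 : Measurable (fun x : Fin n → ℝ => fun k => x (σ k)) := by
      rw [measurable_pi_iff]; intro k; exact measurable_pi_apply _
    exact ((measurable_gain A v).comp h1).aestronglyMeasurable
  · filter_upwards with x
    rw [Real.norm_eq_abs]
    refine (gain_abs_le A v _).trans ?_
    exact le_of_eq (Equiv.sum_comp σ (fun i => |x i|))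

lemma integrable_top (hn : 0 < n) (hint : ∀ i, Integrable (fun t => t) (D i)) :
    Integrable (fun x : Fin n → ℝ => ⨆ i, x i) (Measure.pi D) := by
  refine (integrable_sum_abs D hint).mono' (measurable_top hn).aestronglyMeasurable ?_
  filter_upwards with x
  obtain ⟨i, hi⟩ := exists_top hn x
  rw [← hi, Real.norm_eq_abs]
  exact Finset.single_le_sum (f := fun i => |x i|) (fun j _ => abs_nonneg _) (Finset.mem_univ i)

lemma integrable_maxu (hint : ∀ i, Integrable (fun t => t) (D i)) (T : ℝ) (i : Fin n) :
    Integrable (fun x : Fin n → ℝ => max (x i - T) 0 / (u x T : ℝ)) (Measure.pi D) := by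
  have h1 : Integrable (fun x : Fin n → ℝ => max (x i - T) 0) (Measure.pi D) :=
    ((integrable_eval D hint i).sub (integrable_const T)).pos_part
  refine h1.mono' ?_ ?_
  · apply Measurable.aestronglyMeasurable
    exact Measurable.div (by fun_prop) (measurable_u T)
  · filter_upwards with x
    have h0 : 0 ≤ max (x i - T) 0 := le_max_right _ _
    rw [Real.norm_eq_abs, abs_of_nonneg (div_nonneg h0 (Nat.cast_nonneg _))]
    rcases Nat.eq_zero_or_pos (u x T) with h | h
    · rw [h]; simp
    · have : (1 : ℝ) ≤ u x T := by exact_mod_cast h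
      exact div_le_self h0 this

lemma exp_bound1 : (250 : ℝ) / 97 ≤ Real.exp (9493 / 10000) := by
  refine le_trans ?_ (Real.sum_le_exp_of_nonneg (by norm_num) 6)
  norm_num [Finset.sum_range_succ, Nat.factorial]

lemma log_bound : - Real.log (1 - 153 / 250) ≤ 9493 / 10000 := by
  rw [← Real.log_inv]
  rw [Real.log_le_iff_le_exp (by norm_num)]
  calc ((1 : ℝ) - 153 / 250)⁻¹ = 250 / 97 := by norm_num
    _ ≤ _ := exp_bound1

lemma log_pos' : 0 < - Real.log (1 - 153 / 250) := by
  have := Real.log_neg (x := (1 : ℝ) - 153 / 250) (by norm_num) (by norm_num)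
  linarith

lemma main_bound (hn : 1 ≤ n) (hA : ∀ i t, D i {t} = 0) (hNN : ∀ i, D i (Set.Iio 0) = 0)
    (hint : ∀ i, Integrable (fun t => t) (D i)) {T : ℝ}
    (hT : (Measure.pi D) {x | T < ⨆ i, x i} = ENNReal.ofReal (153 / 250)) :
    127 / 200 * ∫ x, (⨆ i, x i) ∂(Measure.pi D) ≤
      (∑ σ : Equiv.Perm (Fin n), ∫ x, alg.gain T (fun k => x (σ k)) ∂(Measure.pi D)) /
        (n.factorial : ℝ) := by
  classical
  have hn0 : 0 < n := hn
  -- complement event
  have hc : {x : Fin n → ℝ | ∀ i, x i ≤ T} = {x : Fin n → ℝ | T < ⨆ i, x i}ᶜ := by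
    ext x
    simp only [Set.mem_ofPred_eq, Set.mem_compl_iff, not_lt]
    exact ⟨fun h => top_le hn0 h, fun h i => (le_top x i).trans h⟩
  have hmeas : MeasurableSet {x : Fin n → ℝ | T < ⨆ i, x i} :=
    measurableSet_lt measurable_const (measurable_top hn0)
  have hq1 : (Measure.pi D).real {x : Fin n → ℝ | ∀ i, x i ≤ T} = 1 - 153 / 250 := by
    rw [hc, probReal_compl_eq_one_sub hmeas, measureReal_def, hT, ENNReal.toReal_ofReal (by norm_num)]
  have hprod : ∏ j, (1 - (D j).real (Set.Ioi T)) = 1 - 153 / 250 := by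
    rw [← hq1]
    have h1 : {x : Fin n → ℝ | ∀ i, x i ≤ T} = Set.pi Set.univ (fun _ => Set.Iic T) := by
      ext x; simp [Pi.le_def]
    rw [h1, measureReal_def, Measure.pi_pi, ENNReal.toReal_prod]
    apply Finset.prod_congr rfl
    intro j _
    rw [← measureReal_def, ← Set.compl_Ioi, probReal_compl_eq_one_sub measurableSet_Ioi]
  have hinj := ae_inj D hA
  have hnn := ae_nonneg D hNN
  have hT0 : 0 ≤ T := by
    by_contra hcon
    push Not at hcon
    have : (Measure.pi D) {x | T < ⨆ i, x i} = 1 := by
      rw [← (prob_compl_eq_zero_iff hmeas), ← hc]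
      have h2 : ∀ᵐ x ∂(Measure.pi D), ¬ ∀ i, x i ≤ T := by
        filter_upwards [hnn] with x hx h
        have := h ⟨0, hn0⟩
        have := hx ⟨0, hn0⟩
        linarith
      rw [ae_iff] at h2
      simpa using h2
    rw [this] at hT
    have : ENNReal.ofReal (153 / 250) < 1 := by
      rw [ENNReal.ofReal_lt_one]; norm_num
    rw [← hT] at this
    exact lt_irrefl _ this
  -- quantities
  set q : ℝ := 153 / 250 with hq
  set A : Fin n → ℝ := fun i => ∫ t, max (t - T) 0 ∂(D i) with hAdef
  have hA0 : ∀ i, 0 ≤ A i := fun i => integral_nonneg fun t => le_max_right _ _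
  set S : ℝ := ∑ i, A i with hS
  have hS0 : 0 ≤ S := Finset.sum_nonneg fun i _ => hA0 i
  set ind : (Fin n → ℝ) → ℝ := Set.indicator {x : Fin n → ℝ | ∀ i, x i ≤ T} (fun _ => (1 : ℝ))
    with hind
  have hmle := measurableSet_all_le (n := n) T
  have hindint : Integrable ind (Measure.pi D) := (integrable_const _).indicator hmle
  have hind_int : ∫ x, ind x ∂(Measure.pi D) = 1 - q := by
    rw [hind, integral_indicator hmle]
    simp [hq1]
  have hevalmax : ∀ i, ∫ x, max (x i - T) 0 ∂(Measure.pi D) = A i := by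
    intro i
    rw [hAdef]
    simp only
    conv_rhs => rw [← (measurePreserving_eval D i).map_eq]
    rw [integral_map (measurable_pi_apply i).aemeasurable]
    · exact (by fun_prop : Measurable fun t : ℝ => max (t - T) 0).aestronglyMeasurable
  have hmaxint : ∀ i, Integrable (fun x : Fin n → ℝ => max (x i - T) 0) (Measure.pi D) :=
    fun i => ((integrable_eval D hint i).sub (integrable_const T)).pos_part
  -- f1
  have hf1int : Integrable (fun x => f1 x T) (Measure.pi D) := by
    simp_rw [f1_eq]
    apply Integrable.add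
    · exact ((integrable_const _).sub hindint).const_mul T
    · exact integrable_finsetSum _ fun i _ => integrable_maxu D hint T i
  have hf1 : T * q + q / (-Real.log (1 - q)) * S ≤ ∫ x, f1 x T ∂(Measure.pi D) := by
    have e0 : ∫ x, f1 x T ∂(Measure.pi D) = ∫ x, (T * (1 - ind x)) ∂(Measure.pi D) +
        ∫ x, (∑ i, max (x i - T) 0 / (u x T : ℝ)) ∂(Measure.pi D) := by
      rw [← integral_add]
      · apply integral_congr_ae
        filter_upwards with x
        exact f1_eq x T
      · exact ((integrable_const _).sub hindint).const_mul T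
      · exact integrable_finsetSum _ fun i _ => integrable_maxu D hint T i
    rw [e0, integral_const_mul, integral_sub (integrable_const _) hindint,
      integral_finsetSum _ fun i _ => integrable_maxu D hint T i, hind_int]
    simp only [integral_const, probReal_univ, smul_eq_mul, mul_one, sub_sub_cancel]
    rw [hS, Finset.mul_sum]
    have h3 : ∑ i, q / (-Real.log (1 - q)) * A i ≤
        ∑ i, ∫ x, max (x i - T) 0 / (u x T : ℝ) ∂(Measure.pi D) := by
      apply Finset.sum_le_sum
      intro i _
      exact key_lower D i (by norm_num [hq]) (by norm_num [hq]) hprod (hint i)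
    linarith
  -- f0
  have hf0eq : ∀ x : Fin n → ℝ, f0 x T =
      Set.indicator {x : Fin n → ℝ | ∀ i, x i ≤ T} (fun x => ⨆ i, x i) x := by
    intro x
    unfold f0
    by_cases h : ∀ i, x i ≤ T
    · rw [if_pos h, Set.indicator_of_mem (by exact h)]
    · rw [if_neg h, Set.indicator_of_notMem (by exact h)]
  have hf0int : Integrable (fun x => f0 x T) (Measure.pi D) := by
    simp_rw [hf0eq]
    exact (integrable_top D hn0 hint).indicator hmle
  have hf0le : ∫ x, f0 x T ∂(Measure.pi D) ≤ T * (1 - q) := by
    rw [← hind_int, ← integral_const_mul]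
    apply integral_mono hf0int (hindint.const_mul T)
    intro x
    simp only [hf0eq, hind]
    by_cases h : ∀ i, x i ≤ T
    · rw [Set.indicator_of_mem (by exact h), Set.indicator_of_mem (by exact h), mul_one]
      exact top_le hn0 h
    · rw [Set.indicator_of_notMem (by exact h), Set.indicator_of_notMem (by exact h), mul_zero]
  have hf0nn : 0 ≤ ∫ x, f0 x T ∂(Measure.pi D) := by
    apply integral_nonneg_of_ae
    filter_upwards [hnn] with x hx
    simp only [hf0eq]
    by_cases h : ∀ i, x i ≤ T
    · rw [Set.indicator_of_mem (by exact h)]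
      exact (hx ⟨0, hn0⟩).trans (le_top x _)
    · rw [Set.indicator_of_notMem (by exact h)]; exact le_rfl
  -- OPT
  have hopt : ∫ x, (⨆ i, x i) ∂(Measure.pi D) ≤ ∫ x, f0 x T ∂(Measure.pi D) + T * q + S := by
    have h1 : ∫ x, (f0 x T + (T * (1 - ind x) + ∑ i, max (x i - T) 0)) ∂(Measure.pi D) =
        ∫ x, f0 x T ∂(Measure.pi D) + T * q + S := by
      rw [integral_add hf0int, integral_add, integral_const_mul,
        integral_sub (integrable_const _) hindint, integral_finsetSum _ fun i _ => hmaxint i,
        hind_int]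
      · simp only [integral_const, probReal_univ, smul_eq_mul, mul_one, sub_sub_cancel]
        rw [hS, Finset.sum_congr rfl fun i _ => hevalmax i]
        ring
      · exact ((integrable_const _).sub hindint).const_mul T
      · exact integrable_finsetSum _ fun i _ => hmaxint i
      · exact (((integrable_const _).sub hindint).const_mul T).add
          (integrable_finsetSum _ fun i _ => hmaxint i)
    rw [← h1]
    apply integral_mono (integrable_top D hn0 hint)
      (hf0int.add ((((integrable_const _).sub hindint).const_mul T).add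
          (integrable_finsetSum _ fun i _ => hmaxint i)))
    intro x
    show (⨆ i, x i) ≤ f0 x T + (T * (1 - ind x) + ∑ i, max (x i - T) 0)
    simp only [hf0eq, hind]
    have hsum : 0 ≤ ∑ i, max (x i - T) 0 := Finset.sum_nonneg fun i _ => le_max_right _ _
    by_cases h : ∀ i, x i ≤ T
    · rw [Set.indicator_of_mem (by exact h), Set.indicator_of_mem (by exact h)]
      simp only [sub_self, mul_zero, zero_add]
      linarith
    · rw [Set.indicator_of_notMem (by exact h), Set.indicator_of_notMem (by exact h)]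
      obtain ⟨i, hi⟩ := exists_top hn0 x
      have h2 : max (x i - T) 0 ≤ ∑ i, max (x i - T) 0 :=
        Finset.single_le_sum (f := fun i => max (x i - T) 0) (fun j _ => le_max_right _ _)
          (Finset.mem_univ i)
      have h3 : x i - T ≤ max (x i - T) 0 := le_max_left _ _
      rw [← hi]
      linarith
  -- gain
  have hgain : (n.factorial : ℝ) * (beta n * ∫ x, f1 x T ∂(Measure.pi D) +
      gam n * ∫ x, f0 x T ∂(Measure.pi D)) ≤
      ∑ σ : Equiv.Perm (Fin n), ∫ x, alg.gain T (fun k => x (σ k)) ∂(Measure.pi D) := by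
    rw [← integral_const_mul, ← integral_const_mul, ← integral_add (hf1int.const_mul _)
      (hf0int.const_mul _), ← integral_const_mul,
      ← integral_finsetSum _ fun σ _ => integrable_gain D alg T hint σ]
    apply integral_mono_ae
    · exact ((hf1int.const_mul _).add (hf0int.const_mul _)).const_mul _
    · exact integrable_finsetSum _ fun σ _ => integrable_gain D alg T hint σ
    · filter_upwards [hinj, hnn] with x hx hx0
      exact avg_gain hn0 hx hx0 T
  have hfac : (0 : ℝ) < n.factorial := by exact_mod_cast Nat.factorial_pos n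
  rw [le_div_iff₀ hfac]
  refine le_trans ?_ hgain
  rw [mul_comm]
  apply mul_le_mul_of_nonneg_left _ hfac.le
  -- numeric
  have hb := beta_ge hn
  have hg := gam_ge hn
  set B := ∫ x, f0 x T ∂(Measure.pi D) with hB
  set Q := ∫ x, f1 x T ∂(Measure.pi D) with hQ
  have hlog := log_bound
  have hlogp := log_pos'
  have hk : q / (9493 / 10000) ≤ q / (-Real.log (1 - q)) := by
    apply div_le_div_of_nonneg_left _ hlogp hlog
    norm_num [hq]
  have hQ1 : T * q + q / (9493 / 10000) * S ≤ Q := by
    refine le_trans ?_ hf1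
    have := mul_le_mul_of_nonneg_right hk hS0
    linarith
  have hQ0 : 0 ≤ Q := by
    refine le_trans ?_ hQ1
    have : 0 ≤ q := by norm_num [hq]
    positivity
  have h1 : 197 / 200 * Q ≤ beta n * Q := mul_le_mul_of_nonneg_right hb hQ0
  have h2 : 17 / 200 * B ≤ gam n * B := mul_le_mul_of_nonneg_right hg hf0nn
  rw [hq] at hQ1 hf0le hopt
  nlinarith


end Final

/-! ### The competitive ratio of the algorithm -/

lemma ratio_ge : ENNReal.ofReal (127 / 200) ≤ competitiveRatio alg := by
  unfold competitiveRatio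
  refine le_iInf fun n => le_iInf fun D => le_iInf fun v => le_iInf fun h => ?_
  obtain ⟨hn, hD, hpos, hfin, hv⟩ := h
  have hn0 : 0 < n := hn
  have hprob : ∀ i, IsProbabilityMeasure (D i) := hD.isProbability
  have hnn := ae_nonneg D hD.nonnegative
  have hint : ∀ i, Integrable (fun t => t) (D i) := by
    intro i
    have h1 : Integrable (fun x : Fin n → ℝ => x i) (Measure.pi D) := by
      refine ⟨(measurable_pi_apply i).aestronglyMeasurable, ?_⟩
      rw [hasFiniteIntegral_iff_ofReal (by filter_upwards [hnn] with x hx; exact hx i)]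
      refine lt_of_le_of_lt ?_ hfin
      unfold OPT
      exact lintegral_mono fun x => ENNReal.ofReal_le_ofReal (le_top x i)
    have h2 := (integrable_map_measure (f := Function.eval i) (g := fun t : ℝ => t)
      (μ := Measure.pi D) (by fun_prop) (measurable_pi_apply i).aemeasurable).2 h1
    rwa [(measurePreserving_eval D i).map_eq] at h2
  have hopt : OPT D = ENNReal.ofReal (∫ x, (⨆ i, x i) ∂(Measure.pi D)) := by
    unfold OPT
    rw [ofReal_integral_eq_lintegral_ofReal (integrable_top D hn0 hint)]
    filter_upwards [hnn] with x hx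
    exact (hx ⟨0, hn0⟩).trans (le_top x _)
  have hgnn : ∀ σ : Equiv.Perm (Fin n),
      0 ≤ᵐ[Measure.pi D] fun x : Fin n → ℝ => alg.gain v (fun k => x (σ k)) := by
    intro σ
    filter_upwards [hnn] with x hx
    exact gain_nonneg alg v fun i => hx (σ i)
  have hfac : (0 : ℝ) < n.factorial := by exact_mod_cast Nat.factorial_pos n
  have halg : ALG alg D v = ENNReal.ofReal
      ((∑ σ : Equiv.Perm (Fin n), ∫ x, alg.gain v (fun k => x (σ k)) ∂(Measure.pi D)) /
        (n.factorial : ℝ)) := by
    unfold ALG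
    rw [ENNReal.ofReal_div_of_pos hfac, ENNReal.ofReal_natCast,
      ENNReal.ofReal_sum_of_nonneg fun σ _ => integral_nonneg_of_ae (hgnn σ)]
    congr 1
    apply Finset.sum_congr rfl
    intro σ _
    rw [ofReal_integral_eq_lintegral_ofReal (integrable_gain D alg v hint σ) (hgnn σ)]
  rw [ENNReal.le_div_iff_mul_le (Or.inl hpos.ne') (Or.inl hfin.ne), hopt, halg,
    ← ENNReal.ofReal_mul (by norm_num)]
  apply ENNReal.ofReal_le_ofReal
  exact main_bound D hn hD.noAtom hD.nonnegative hint hv

lemma exp_bound2 : 1 - 1 / Real.exp 1 < 127 / 200 := by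
  have h1 := Real.exp_one_lt_d9
  have h2 : (0 : ℝ) < Real.exp 1 := Real.exp_pos 1
  have h3 : (73 : ℝ) / 200 < 1 / Real.exp 1 := by
    rw [lt_div_iff₀ h2]
    nlinarith
  linarith

end Pool.Agent.ProphetSecretary
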